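import Pool.Agent.helper5.BEY.SpecA

/-!
# Row bey:ETA (MP_4467b5_nt): removal of the dependence of the weight on `h`
-/

set_option autoImplicit false

open Complex MeasureTheory

namespace Pool.Agent.BEY

theorem ETA_cd (w : ℝ → ℝ) (M y : ℝ) (hw : ContDiff ℝ 3 w) : ContDiff ℝ 1 fun x : ℝ => Wz w M x y := by
  have h1 : ContDiff ℝ 1 w := hw.of_le (by norm_num)
  unfold Wz
  refine ContDiff.mul (h1.comp ?_) (h1.comp ?_)
  · exact (contDiff_id.mul contDiff_const).div_const M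
  · exact (contDiff_id.mul contDiff_const).div_const M

theorem ETA_int (w : ℝ → ℝ) (M y a b : ℝ) (hw : ContDiff ℝ 3 w) (hab : a ≤ b) :
    ∫ η in Set.Ioc a b, deriv (fun x : ℝ => Wz w M x y) η = Wz w M b y - Wz w M a y := by
  have hc := ETA_cd w M y hw
  rw [← intervalIntegral.integral_of_le hab]
  refine intervalIntegral.integral_eq_sub_of_hasDerivAt (f := fun x : ℝ => Wz w M x y) ?_ ?_
  · intro x _
    exact (hc.differentiable (by norm_num) x).hasDerivAt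
  · exact (hc.continuous_deriv (by norm_num)).intervalIntegrable _ _

theorem ETA_one (w : ℝ → ℝ) (M y a b h : ℝ) (c : ℂ) (hw : ContDiff ℝ 3 w) (hah : a ≤ h) (hhb : h ≤ b) :
    IntegrableOn ((Set.Ioi h).indicator fun η : ℝ => ((deriv (fun x : ℝ => Wz w M x y) η : ℝ) : ℂ) * c) (Set.Ioc a b) ∧
    ∫ η in Set.Ioc a b, (Set.Ioi h).indicator (fun η : ℝ => ((deriv (fun x : ℝ => Wz w M x y) η : ℝ) : ℂ) * c) η =
      ((Wz w M b y : ℝ) : ℂ) * c - ((Wz w M h y : ℝ) : ℂ) * c := by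
  have hc := (ETA_cd w M y hw).continuous_deriv (by norm_num)
  have hcc : Continuous fun η : ℝ => ((deriv (fun x : ℝ => Wz w M x y) η : ℝ) : ℂ) * c :=
    (Complex.continuous_ofReal.comp hc).mul continuous_const
  refine ⟨hcc.integrableOn_Ioc.indicator measurableSet_Ioi, ?_⟩
  rw [setIntegral_indicator measurableSet_Ioi, Set.Ioc_inter_Ioi, max_eq_right hah]
  have h1 : ∫ η in Set.Ioc h b, ((deriv (fun x : ℝ => Wz w M x y) η : ℝ) : ℂ) * c =
      ((∫ η in Set.Ioc h b, deriv (fun x : ℝ => Wz w M x y) η : ℝ) : ℂ) * c := by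
    rw [integral_mul_const, integral_complex_ofReal]
  rw [h1, ETA_int w M y h b hw hhb]
  push_cast
  ring

theorem ETA : ETA_stmt := by
  intro w M B H₀ L e hw hM hH h1 h2
  have hH0 : (0 : ℝ) < H₀ := by exact_mod_cast hH
  set G : ℕ → ℕ → ℝ → ℂ := fun h n => (Set.Ioi (h : ℝ)).indicator
    (fun η : ℝ => ((deriv (fun x : ℝ => Wz w M x ((n : ℝ) / h)) η : ℝ) : ℂ) * e ((n : ℝ) / h)) with hG
  have hone : ∀ h ∈ Finset.Ico H₀ (2 * H₀), ∀ n ∈ Finset.range L, IntegrableOn (G h n) (Set.Ioc (H₀ : ℝ) (2 * H₀)) ∧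
      ∫ η in Set.Ioc (H₀ : ℝ) (2 * H₀), G h n η = ((Wz w M (2 * H₀) ((n : ℝ) / h) : ℝ) : ℂ) * e ((n : ℝ) / h) -
        ((Wz w M h ((n : ℝ) / h) : ℝ) : ℂ) * e ((n : ℝ) / h) := by
    intro h hh n _
    rw [Finset.mem_Ico] at hh
    refine ETA_one w M ((n : ℝ) / h) H₀ (2 * H₀) h (e ((n : ℝ) / h)) hw.1 ?_ ?_
    · exact_mod_cast hh.1
    · exact_mod_cast hh.2.le
  have hsum : ∫ η in Set.Ioc (H₀ : ℝ) (2 * H₀), ∑ h ∈ Finset.Ico H₀ (2 * H₀), ∑ n ∈ Finset.range L, G h n η =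
      (∑ h ∈ Finset.Ico H₀ (2 * H₀), ∑ n ∈ Finset.range L, ((Wz w M (2 * H₀) ((n : ℝ) / h) : ℝ) : ℂ) * e ((n : ℝ) / h)) -
      ∑ h ∈ Finset.Ico H₀ (2 * H₀), ∑ n ∈ Finset.range L, ((Wz w M h ((n : ℝ) / h) : ℝ) : ℂ) * e ((n : ℝ) / h) := by
    rw [integral_finset_sum _ (fun h hh => integrable_finset_sum _ fun n hn => (hone h hh n hn).1), ← Finset.sum_sub_distrib]
    refine Finset.sum_congr rfl fun h hh => ?_
    rw [integral_finset_sum _ (fun n hn => (hone h hh n hn).1), ← Finset.sum_sub_distrib]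
    exact Finset.sum_congr rfl fun n hn => (hone h hh n hn).2
  have h3 : ‖∫ η in Set.Ioc (H₀ : ℝ) (2 * H₀), ∑ h ∈ Finset.Ico H₀ (2 * H₀), ∑ n ∈ Finset.range L, G h n η‖ ≤ B := by
    have h4 : ∀ η ∈ Set.Ioc (H₀ : ℝ) (2 * H₀), ‖∑ h ∈ Finset.Ico H₀ (2 * H₀), ∑ n ∈ Finset.range L, G h n η‖ ≤ B / H₀ := by
      intro η hη
      have h5 := h2 (fun h => if (h : ℝ) < η then 1 else 0) η (fun h => by split_ifs <;> norm_num) hη.1.le hη.2
      rw [le_div_iff₀ hH0]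
      refine le_trans (le_of_eq ?_) h5
      have h6 : ‖∑ h ∈ Finset.Ico H₀ (2 * H₀), ∑ n ∈ Finset.range L, G h n η‖ * (H₀ : ℝ) =
          ‖(∑ h ∈ Finset.Ico H₀ (2 * H₀), ∑ n ∈ Finset.range L, G h n η) * ((H₀ : ℝ) : ℂ)‖ := by
        rw [norm_mul, Complex.norm_real, Real.norm_of_nonneg hH0.le]
      rw [h6, Finset.sum_mul]
      congr 1
      refine Finset.sum_congr rfl fun h _ => ?_
      rw [Finset.sum_mul, Finset.mul_sum]
      refine Finset.sum_congr rfl fun n _ => ?_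
      by_cases hc : (h : ℝ) < η
      · rw [hG]
        simp only [Set.indicator_of_mem (show η ∈ Set.Ioi (h : ℝ) from hc), if_pos hc]
        push_cast
        ring
      · rw [hG]
        simp only [Set.indicator_of_notMem (show η ∉ Set.Ioi (h : ℝ) from hc), if_neg hc]
        push_cast
        ring
    have h7 := norm_setIntegral_le_of_norm_le_const (μ := volume) (s := Set.Ioc (H₀ : ℝ) (2 * H₀)) measure_Ioc_lt_top h4
    rw [Real.volume_real_Ioc_of_le (by linarith)] at h7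
    have h8 : B / (H₀ : ℝ) * (2 * H₀ - H₀) = B := by
      field_simp
      ring
    rw [h8] at h7
    exact h7
  have h9 := h1 (fun _ => 1) (fun _ => by norm_num)
  have h10 : ∑ h ∈ Finset.Ico H₀ (2 * H₀), ∑ n ∈ Finset.range L, ((Wz w M h ((n : ℝ) / h) : ℝ) : ℂ) * e ((n : ℝ) / h) =
      (∑ h ∈ Finset.Ico H₀ (2 * H₀), ((1 : ℝ) : ℂ) * ∑ n ∈ Finset.range L,
        ((Wz w M (2 * H₀) ((n : ℝ) / h) : ℝ) : ℂ) * e ((n : ℝ) / h)) -
      ∫ η in Set.Ioc (H₀ : ℝ) (2 * H₀), ∑ h ∈ Finset.Ico H₀ (2 * H₀), ∑ n ∈ Finset.range L, G h n η := by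
    rw [hsum]
    simp only [Complex.ofReal_one, one_mul]
    ring
  rw [h10]
  refine (norm_sub_le _ _).trans ?_
  linarith

end Pool.Agent.BEY
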